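import Pool.Agent.Y819.ZF.StmM
import Pool.Agent.Y438.ZF.Deg

/-! Project ZF, third part: the degrees of the chain multigraph (multigraph version). -/

set_option autoImplicit false
set_option linter.all false

namespace Pool.Agent.Y427.ZM

open Finset Pool.Agent.Helper929 Pool.Agent.H604R2.LEC Pool.Agent.Y819.ZF Pool.Agent.Y438.ZF

section step

variable {V : Type} [Fintype V] [DecidableEq V] {f : ℕ} {μ : V → V → ℕ} {Z : Finset V}
  {h : Fin f → V}

theorem degM_inst {V : Type} [Fintype V] {f : ℕ} (μ : V → V → ℕ) (Z : Finset V)
    (h : Fin f → V) (v : V) [DecidablePred fun w => Cur Z h w] :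
    degM μ Z h v = ∑ w ∈ univ.filter (fun w => Cur Z h w), μ v w := by
  unfold degM
  congr!

theorem degM_step (hi : Function.Injective h) (hZ : ∀ c, h c ∉ Z) {c : Fin f} {u : V}
    (hu : u ∈ Z) (v : V) :
    degM μ Z h v = degM μ (Z.erase u) (Function.update h c u) v + μ v (h c) := by
  classical
  rw [degM_inst, degM_inst]
  have hmem : h c ∈ univ.filter (fun w => Cur Z h w) := by
    rw [mem_filter]
    exact ⟨mem_univ _, Or.inr ⟨c, rfl⟩⟩
  rw [← Finset.sum_erase_add _ _ hmem]
  congr 1
  refine Finset.sum_congr ?_ fun _ _ => rfl
  ext w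
  rw [mem_filter, mem_erase, mem_filter, cur_step hi hZ hu]
  tauto

theorem degM_val (hi : Function.Injective h) (hZ : ∀ c, h c ∉ Z) (v : V) :
    degM μ Z h v = ∑ w ∈ Z, μ v w + ∑ c' : Fin f, μ v (h c') := by
  classical
  rw [degM_inst]
  have e1 : ∑ c' : Fin f, μ v (h c') = ∑ w ∈ univ.image h, μ v w := by
    rw [Finset.sum_image fun a _ b _ hab => hi hab]
  rw [e1, ← Finset.sum_union]
  · refine Finset.sum_congr ?_ fun _ _ => rfl
    ext w
    rw [mem_filter, mem_union, mem_image]
    unfold Cur
    simp
  · rw [Finset.disjoint_left]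
    intro w hw hw'
    rw [mem_image] at hw'
    obtain ⟨c', -, rfl⟩ := hw'
    exact hZ c' hw

end step

theorem main : S_DEGM := by
  classical
  intro V _ _ f μ Z h m hs hd hi hZ hco hF
  induction hF with
  | done h =>
    intro c
    have e := sum_at c (fun a b => μ (h a) (h b)) (fun a b => hs _ _)
    refine Eq.trans ?_ (e.trans ?_)
    · refine Finset.sum_congr ?_ fun _ _ => rfl
      congr
    · rw [degM_val hi hZ (h c), Finset.sum_empty, zero_add,
        ← Finset.sum_erase_add _ _ (mem_univ c), hd, add_zero]
  | step Z h c₀ u m hu h0 h1' hm ih =>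
    have hZ' : ∀ c, Function.update h c₀ u c ∉ Z.erase u := by
      intro c hc
      rw [mem_erase] at hc
      by_cases h1 : c = c₀
      · subst h1
        rw [Function.update_self] at hc
        exact hc.1 rfl
      · rw [Function.update_of_ne h1] at hc
        exact hZ c hc.2
    have hi' : Function.Injective (Function.update h c₀ u) := by
      intro a b hab
      by_cases h1 : a = c₀
      · by_cases h2 : b = c₀
        · rw [h1, h2]
        · rw [h1, Function.update_self, Function.update_of_ne h2] at hab
          exact absurd (hab ▸ hu) (hZ b)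
      · by_cases h2 : b = c₀
        · rw [h2, Function.update_self, Function.update_of_ne h1] at hab
          exact absurd (hab ▸ hu) (hZ a)
        · rw [Function.update_of_ne h1, Function.update_of_ne h2] at hab
          exact hi hab
    have hco' : ∀ v ∈ Z.erase u, degM μ (Z.erase u) (Function.update h c₀ u) v =
        (Z.erase u).card - 1 := by
      intro v hv
      rw [mem_erase] at hv
      have h1 := degM_step (μ := μ) hi hZ (c := c₀) hu v
      rw [hco v hv.2, hs v, h1' v hv.2 hv.1] at h1
      rw [Finset.card_erase_of_mem hu]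
      omega
    have IH := ih hi' hZ' hco'
    intro c
    have e := sum_at c (fun a b => if a = c₀ ∨ b = c₀ then μ (h a) (h b) else 0)
      (fun a b => by
        rw [hs (h a)]
        simp only [or_comm (a := a = c₀)])
    have hsplit : ∑ e ∈ univ.filter (fun e : Ed f => e.1.1 = c ∨ e.1.2 = c), (m e +
        if e.1.1 = c₀ ∨ e.1.2 = c₀ then μ (h e.1.1) (h e.1.2) else 0) =
        degM μ (Z.erase u) (Function.update h c₀ u) (Function.update h c₀ u c) +
        ∑ c' ∈ univ.erase c, (if c = c₀ ∨ c' = c₀ then μ (h c) (h c') else 0) := by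
      rw [Finset.sum_add_distrib, ← IH c]
      congr 1
    refine Eq.trans ?_ (hsplit.trans ?_)
    · congr!
    · by_cases hc : c = c₀
      · subst hc
        have h2 := degM_step (μ := μ) hi hZ (c := c) hu u
        rw [hco u hu, hs u, h0, add_zero] at h2
        rw [Function.update_self, ← h2, degM_val hi hZ (h c)]
        have e2 : ∑ w ∈ Z, μ (h c) w = Z.card - 1 := by
          rw [← Finset.sum_erase_add _ _ hu, h0, add_zero, ← Finset.card_erase_of_mem hu,
            Finset.card_eq_sum_ones]
          refine Finset.sum_congr rfl fun w hw => ?_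
          rw [mem_erase] at hw
          exact h1' w hw.2 hw.1
        rw [e2]
        congr 1
        rw [← Finset.sum_erase_add _ _ (mem_univ c), hd, add_zero]
        refine Finset.sum_congr rfl fun c' _ => ?_
        simp
      · rw [Function.update_of_ne hc, degM_step (μ := μ) hi hZ (c := c₀) hu (h c)]
        congr 1
        rw [Finset.sum_eq_single c₀]
        · simp
        · intro b _ hb
          rw [if_neg]
          rintro (h1 | h1)
          · exact hc h1
          · exact hb h1
        · intro h1
          exact absurd (mem_erase.2 ⟨fun e => hc e.symm, mem_univ _⟩) h1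

end Pool.Agent.Y427.ZM
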